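import Pool.Agent.W932.RO.Stm

set_option autoImplicit false

/-!
# Sizes of the levels for one root
-/

namespace Pool.Agent.W460.RO

open Finset H568R2 Pool.Agent.H676 Pool.Agent.H620R2.Gauge Pool.Agent.NPC
open Pool.Agent.H591R3.PHG Pool.Agent.W932.RO

open Classical in
theorem one_good {c D : ℕ} {t cc : ℝ} {law : Option Bool → ℝ} (hl : ∑ v, law v = 1)
    (hgood : 1 / 2 ≤ ∑ σ : Fin c → Option Bool, (∏ i, law (σ i)) *
      (if Good t cc D σ then (1 : ℝ) else 0)) :
    Ex law (fun s : Unit × Fin c → Option Bool => if ngood t cc D s < 1 then (1 : ℝ) else 0) ≤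
      1 / 2 := by
  let h : (Fin c → Option Bool) → ℝ := fun σ => if Good t cc D σ then 0 else 1
  have hprod : ∀ s : Unit × Fin c → Option Bool,
      (if ngood t cc D s < 1 then (1 : ℝ) else 0) = ∏ j, h (fun i => s (j, i)) := by
    intro s
    rw [Fintype.prod_unique]
    have h0 : ngood t cc D s < 1 ↔ ¬ Good t cc D (fun i => s (default, i)) := by
      unfold ngood
      rw [Nat.lt_one_iff, Finset.card_eq_zero, Finset.filter_eq_empty_iff]
      constructor
      · intro h1
        exact h1 (Finset.mem_univ default)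
      · intro h1 j _
        have : j = default := Subsingleton.elim _ _
        rw [this]
        exact h1
    have h2 : h (fun i => s (default, i)) =
        if Good t cc D (fun i => s (default, i)) then (0 : ℝ) else 1 := rfl
    rw [h2]
    by_cases h3 : Good t cc D (fun i => s (default, i))
    · rw [if_neg (fun h4 => h0.1 h4 h3), if_pos h3]
    · rw [if_pos (h0.2 h3), if_neg h3]
  have h1 : Ex law (fun s : Unit × Fin c → Option Bool =>
      if ngood t cc D s < 1 then (1 : ℝ) else 0) =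
      Ex law (fun s : Unit × Fin c → Option Bool => ∏ j, h (fun i => s (j, i))) := by
    unfold Ex
    exact Finset.sum_congr rfl fun s _ => congrArg ((∏ i, law (s i)) * ·) (hprod s)
  rw [h1, fg_block, Fintype.card_unit, pow_one]
  have h5 : ∀ σ : Fin c → Option Bool, (∏ i, law (σ i)) * h σ =
      (∏ i, law (σ i)) - (∏ i, law (σ i)) * (if Good t cc D σ then (1 : ℝ) else 0) := by
    intro σ
    have : h σ = if Good t cc D σ then (0 : ℝ) else 1 := rfl
    rw [this]
    split_ifs <;> ring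
  rw [Finset.sum_congr rfl fun σ _ => h5 σ, Finset.sum_sub_distrib]
  have h6 : ∑ σ : Fin c → Option Bool, ∏ i, law (σ i) = 1 := by
    have := Ex_const (I := Fin c) hl 1
    unfold Ex at this
    simpa using this
  rw [h6]
  linarith

/-- the sizes of the levels -/
theorem sizes {n : ℕ} (hn : 5 ≤ n) : ∀ (k : ℕ) (law : Option Bool → ℝ), Inv n law →
    ∃ as : List ℕ, as.length = k + 1 ∧ (∀ a ∈ as, a ≤ 64 * n) ∧
      ∀ D : ℕ, 16 * D ≤ 2 ^ (4 * n) →
        Ex law (Wt (X := Unit) (1 / 2 ^ (4 * n)) (1 / 2 ^ (2 * n)) (8 * n * 2 ^ (4 * n)) (1 / 256) D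
          1 (pw as)) ≤ 1 / 2 := by
  classical
  have h2n : (1 : ℝ) / 2 ^ (2 * n) ≤ 1 / 32 := by
    apply one_div_le_one_div_of_le (by norm_num)
    calc (32 : ℝ) = 2 ^ 5 := by norm_num
      _ ≤ 2 ^ (2 * n) := pow_le_pow_right₀ (by norm_num) (by omega)
  intro k
  induction k with
  | zero =>
    intro law hinv
    obtain ⟨a, ha, h1, h2⟩ := exists_pow hn (B := 1 / 2) hinv.lo hinv.hi le_rfl (by
      have : (5 : ℝ) ≤ n := by exact_mod_cast hn
      linarith)
    refine ⟨[a], rfl, by simpa using ha, ?_⟩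
    intro D hD
    have hT : (64 : ℕ) ≤ 2 ^ (4 * n) := by
      calc 64 = 2 ^ 6 := by norm_num
        _ ≤ 2 ^ (4 * n) := Nat.pow_le_pow_right (by norm_num) (by omega)
    have h16 : 16 ∣ 2 ^ (4 * n) := by
      have : (16 : ℕ) = 2 ^ 4 := by norm_num
      rw [this]
      exact pow_dvd_pow 2 (by omega)
    have hc : (((2 ^ (4 * n) : ℕ)) : ℝ) = 2 ^ (4 * n) := by push_cast; rfl
    have hc2 : (((2 ^ a : ℕ)) : ℝ) = 2 ^ a := by push_cast; rfl
    have hgp := good_prob (c := 2 ^ a) (D := D) (T := 2 ^ (4 * n)) (ξ := 1 / 2 ^ (2 * n)) hT h16 hD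
      (by positivity) h2n (law := law) hinv.nonneg hinv.sum (by rw [hc]; exact hinv.rare)
      (by rw [hc, hc2]; exact h1) (by rw [hc, hc2]; linarith)
    rw [hc] at hgp
    exact one_good (c := 2 ^ a) hinv.sum hgp
  | succ k ih =>
    intro law hinv
    have hn5 : (5 : ℝ) ≤ n := by exact_mod_cast hn
    obtain ⟨a, ha, h1, h2⟩ := exists_pow hn (B := 16 * n) hinv.lo hinv.hi (by linarith) le_rfl
    have hc2 : (((2 ^ a : ℕ)) : ℝ) = 2 ^ a := by push_cast; rfl
    have hinv' := inv_step (c := 2 ^ a) hn hinv (by rw [hc2]; exact h1)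
      (by rw [hc2]; linarith)
    obtain ⟨as, hlen, has, hX⟩ := ih _ hinv'
    refine ⟨a :: as, by simp [hlen], ?_, ?_⟩
    · intro a' ha'
      rcases List.mem_cons.1 ha' with rfl | h
      · exact ha
      · exact has a' h
    · intro D hD
      refine le_trans (le_of_eq ?_) (hX D hD)
      have hne : pw as ≠ [] := by
        intro h
        have : (pw as).length = 0 := by rw [h]; rfl
        rw [pw, List.length_map] at this
        omega
      rw [← law_stage (G := Idx Unit (pw as)) (c := 2 ^ a) (smin := 8 * n * 2 ^ (4 * n))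
        (t := 1 / 2 ^ (4 * n)) (t' := 1 / 2 ^ (4 * n)) (ξ := 1 / 2 ^ (2 * n)) law]
      show Ex law (Wt (X := Unit) _ _ _ _ D 1 (2 ^ a :: pw as)) = _
      unfold Ex
      refine Finset.sum_congr rfl fun s _ => ?_
      rw [Wt_two _ _ _ _ _ _ _ _ hne]
      rfl

/-- RO-SZ -/
theorem main : StmSZ := by
  intro n t hn
  obtain ⟨as, h1, h2, h3⟩ := sizes hn t _ (inv_start hn)
  exact ⟨as, h1, h2, h3⟩

end Pool.Agent.W460.RO
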